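import Mathlib
import Pool.Agent.W58.Str
import Pool.Agent.W504.YM.Cart
import Pool.Agent.W653.CF.Main

/-!
# Statements of the parts: static charges for general representations
-/

open MeasureTheory Matrix
open scoped Matrix.Norms.Frobenius ContDiff

namespace Pool.Agent.W653.SC

open Pool.Agent.H906R3.YM Pool.Agent.W58 Pool.Agent.W653.CF

noncomputable section

/-- smooth dependence of integrals on parameters -/
def StmtPar : Prop :=
  ∀ (X P E H : Type) [TopologicalSpace X] [CompactSpace X] [SecondCountableTopology X]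
    [MeasurableSpace X] [BorelSpace X] (ν : Measure X) [IsFiniteMeasure ν]
    [NormedAddCommGroup P] [NormedSpace ℝ P] [NormedAddCommGroup E] [NormedSpace ℝ E]
    [NormedAddCommGroup H] [NormedSpace ℝ H] [CompleteSpace H] (c : X → P) (ψ : P × E → H),
    Continuous c → ContDiff ℝ ∞ ψ → ContDiff ℝ ∞ fun M : E => ∫ x, ψ (c x, M) ∂ν

/-- Continuous representations are smooth. -/
def StmtGard : Prop :=
  ∀ (G : Type) [Group G] [TopologicalSpace G] [IsTopologicalGroup G] [CompactSpace G] [T2Space G]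
    [SecondCountableTopology G] [MeasurableSpace G] [BorelSpace G] (μ : Measure G)
    [IsProbabilityMeasure μ] [μ.IsMulLeftInvariant] [μ.IsOpenPosMeasure] (N M : ℕ)
    (rho : G →* Mat N) (r : G →* Mat M), Continuous rho → Function.Injective rho →
    (∀ g, rho g * (rho g)ᴴ = 1) → Continuous r →
    ∃ f : Mat N → Mat M, ContDiff ℝ ∞ f ∧ ∀ g, r g = f (rho g)

/-- Existence of a nonzero smooth covariant function of finitely many group elements, for a
representation which is trivial on the centre. -/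
def StmtEqv : Prop :=
  ∀ (G : Type) [Group G] [TopologicalSpace G] [IsTopologicalGroup G] [CompactSpace G] [T2Space G]
    [SecondCountableTopology G] [MeasurableSpace G] [BorelSpace G] (μ : Measure G)
    [IsProbabilityMeasure μ] [μ.IsMulLeftInvariant] [μ.IsOpenPosMeasure] (N M : ℕ)
    (rho : G →* Mat N) (r : G →* Mat M), Continuous rho → Function.Injective rho →
    (∀ g, rho g * (rho g)ᴴ = 1) → Continuous r → (∀ g, r g * (r g)ᴴ = 1) → 0 < M →
    (∀ z : G, (∀ h, z * h = h * z) → r z = 1) →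
    ∃ (k : ℕ) (F : (Fin k → G) → Fin M → ℂ) (f : (Fin k → Mat N) → Fin M → ℂ),
      ContDiff ℝ ∞ f ∧ (∀ U, F U = f fun i => rho (U i)) ∧
      (∀ (h : G) (U : Fin k → G), F (fun i => h * U i * h⁻¹) = (r h).mulVec (F U)) ∧
      ∃ U, F U ≠ 0

/-- Central elements of a closed subgroup with positive curvature have finite order. -/
def StmtOrd : Prop :=
  ∀ (N n : ℕ) (G : Subgroup (UN N)) (_ : IsClosed (G : Set (UN N))) (B : Frame G n) (K : ℝ),
    0 < K → Pool.Agent.W504.YM.Curv B.toLD K → ∀ z : G, (∀ h : G, z * h = h * z) →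
    ∃ p : ℕ, 0 < p ∧ z ^ p = 1

/-- the energy `g^2/2 ∫ |∇u|^2 + g^-2 ∫ V u^2` -/
def en {G : Type} [Group G] [TopologicalSpace G] {N n : ℕ} {L : LD G N n}
    [IsTopologicalGroup G] [CompactSpace G] [SecondCountableTopology G]
    [MeasurableSpace G] [BorelSpace G] (μ : Measure G) [IsProbabilityMeasure μ]
    {D l : ℕ} [NeZero l] (g : ℝ) (u : Sm L (Ed D l)) : ℝ :=
  g ^ 2 / 2 * L.I μ (Gam (L.Dv (E := Ed D l)) u u) + 1 / g ^ 2 * L.I μ (VT L D l * (u * u))

/-- the matrix valued function with the given real and imaginary parts of the entries -/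
def cmat {X : Type} {M : ℕ} (u : (Fin M × Fin M) × Bool → X → ℝ) (x : X) : Mat M :=
  Matrix.of fun i j => (⟨u ((i, j), true) x, u ((i, j), false) x⟩ : ℂ)

/-- the mean eigenvalue of the Casimir operator of the representation `r` -/
def cas {G : Type} [Group G] [TopologicalSpace G] {N n : ℕ} (L : LD G N n) {M : ℕ}
    (r : G →* Mat M) : ℝ :=
  (∑ a : Fin n, ∑ i : Fin M, ∑ j : Fin M, ‖deriv (fun t : ℝ => r (L.ex a t) i j) 0‖ ^ 2) / M

/-- The string state: near ground state times the parallel transporter in the representation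
`r` along a shortest path. -/
def StmtStr : Prop :=
  ∀ (G : Type) [Group G] [TopologicalSpace G] [IsTopologicalGroup G] [CompactSpace G]
    [SecondCountableTopology G] [MeasurableSpace G] [BorelSpace G] (μ : Measure G)
    [IsProbabilityMeasure μ] [μ.IsMulLeftInvariant] [μ.IsOpenPosMeasure] (N n M D l : ℕ)
    [NeZero l] (L : LD G N n) (r : G →* Mat M), (∀ g, r g * (r g)ᴴ = 1) → 0 < M →
    (∃ f : Mat N → Mat M, ContDiff ℝ ∞ f ∧ ∀ g, r g = f (L.rho g)) →
    ∀ (x y : Fin D → ZMod l) (g : ℝ) (Ω : Sm L (Ed D l)), Inv Ω → L.I μ (Ω * Ω) = 1 →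
    ∃ u : (Fin M × Fin M) × Bool → Sm L (Ed D l),
      (∀ (γ : (Fin D → ZMod l) → G) (U : Ed D l → G),
        cmat (fun c => (u c).1) (gt γ U) = r (γ x) * cmat (fun c => (u c).1) U * (r (γ y))ᴴ) ∧
      ∑ c, L.I μ (u c * u c) = 1 ∧
      ∑ c, en μ g (u c) = en μ g Ω + g ^ 2 / 2 * (cas L r * dT x y)

/-- Twists: the lower bound on balls, with a different central element for each radius. -/
def StmtBall : Prop :=
  ∀ (G : Type) [Group G] [TopologicalSpace G] [IsTopologicalGroup G] [CompactSpace G]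
    [SecondCountableTopology G] [MeasurableSpace G] [BorelSpace G] (μ : Measure G)
    [IsProbabilityMeasure μ] [μ.IsMulLeftInvariant] [μ.IsOpenPosMeasure] (N n D l : ℕ)
    [NeZero l] (L : LD G N n) (_ : 0 < N) (r : ℝ) (_ : Pool.Agent.W504.YM.Cn L r) (p : ℕ)
    (_ : 0 < p) (K Y : ℝ) (_ : 2 * Y < K) (_ : Pool.Agent.W504.YM.Curv L K) (g E0 : ℝ)
    (_ : Near L μ D l g E0 Y) (x : Fin D → ZMod l) (T : Finset ℕ) (z : ℕ → G)
    (_ : ∀ r ∈ T, (∀ h, z r * h = h * z r) ∧ z r ^ p = 1) (φ : Sm L (Ed D l))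
    (_ : ∀ r ∈ T, PrT p (zc (z r) x r) φ),
    (E0 + g ^ 2 / 2 * ((K - 2 * Y) * T.card)) * L.I μ (φ * φ) ≤ en μ g φ

/-- Twists: the lower bound on hyperplanes, with a different central element for each
direction. -/
def StmtHyp : Prop :=
  ∀ (G : Type) [Group G] [TopologicalSpace G] [IsTopologicalGroup G] [CompactSpace G]
    [SecondCountableTopology G] [MeasurableSpace G] [BorelSpace G] (μ : Measure G)
    [IsProbabilityMeasure μ] [μ.IsMulLeftInvariant] [μ.IsOpenPosMeasure] (N n D l : ℕ)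
    [NeZero l] (L : LD G N n) (_ : 0 < N) (r : ℝ) (_ : Pool.Agent.W504.YM.Cn L r) (p : ℕ)
    (_ : 0 < p) (K Y : ℝ) (_ : 2 * Y < K) (_ : Pool.Agent.W504.YM.Curv L K) (g E0 : ℝ)
    (_ : Near L μ D l g E0 Y) (T : Finset (Fin D)) (z : Fin D → G)
    (_ : ∀ i ∈ T, ∀ h, z i * h = h * z i) (φ : Sm L (Ed D l))
    (_ : ∀ i ∈ T, ∀ r, PrT p (hz (z i) i r) φ),
    (E0 + g ^ 2 / 2 * ((K - 2 * Y) * (T.card * l : ℕ))) * L.I μ (φ * φ) ≤ en μ g φ

/-- Families of functions with gauge invariant sum of squares have energy at least `E0`. -/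
def StmtPos : Prop :=
  ∀ (G : Type) [Group G] [TopologicalSpace G] [IsTopologicalGroup G] [CompactSpace G]
    [SecondCountableTopology G] [MeasurableSpace G] [BorelSpace G] (μ : Measure G)
    [IsProbabilityMeasure μ] [μ.IsMulLeftInvariant] (N n D l : ℕ)
    [NeZero l] (L : LD G N n) (g E0 : ℝ)
    (_ : ∀ f : Sm L (Ed D l), Inv f → E0 * L.I μ (f * f) ≤ en μ g f)
    (κ : Type) [Fintype κ] (Y : κ → Sm L (Ed D l))
    (_ : ∀ γ, ∑ a, gs γ (Y a) * gs γ (Y a) = ∑ a, Y a * Y a),
    E0 * ∑ a, L.I μ (Y a * Y a) ≤ ∑ a, en μ g (Y a)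

/-- `V` on the links of `S`, `U` on the other links -/
def mix {E G : Type} [DecidableEq E] (S : Finset E) (V U : E → G) : E → G :=
  fun e => if e ∈ S then V e else U e

/-- A function does not depend on the links of `S`. -/
def Indep {E G : Type} (S : Finset E) (F : (E → G) → ℝ) : Prop :=
  ∀ U V : E → G, (∀ e, e ∉ S → U e = V e) → F U = F V

/-- The magnetic energy changes little if few links are changed. -/
def StmtOsc : Prop :=
  ∀ (G : Type) [Group G] [TopologicalSpace G] (N n D l : ℕ) [NeZero l] (L : LD G N n)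
    (S : Finset (Ed D l)) (U V : Ed D l → G), (∀ e, e ∉ S → U e = V e) →
    |(VT L D l).1 U - (VT L D l).1 V| ≤ 8 * D * N * S.card

/-- Links of a part of the lattice: `(i, 0)` and `(i, 1)` are the links at `i e₁` in the
directions `1` and `2`, and `(i, 2)` is the link at `i e₁ + e₂` in direction `1`. -/
abbrev Tm (k : ℕ) : Type := Fin (k + 1) × Fin 3

/-- transport from `0` to `i e₁` -/
def Pp {G : Type} [Group G] {k : ℕ} (U : Tm k → G) : ℕ → G
  | 0 => 1
  | i + 1 => Pp U i * U (Fin.ofNat (k + 1) i, 0)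

/-- the lassos: from `0` to `i e₁`, around the plaquette there, and back -/
def Wl {G : Type} [Group G] {k : ℕ} (U : Tm k → G) (i : Fin k) : G :=
  Pp U i * (U (i.castSucc, 1) * U (i.castSucc, 2) * (U (i.succ, 1))⁻¹ *
    (U (i.castSucc, 0))⁻¹) * (Pp U i)⁻¹

/-- the position of the links with the origin at `x` -/
def lk {D l k : ℕ} (hD : 2 ≤ D) (x : Fin D → ZMod l) (t : Tm k) : Ed D l :=
  (x + (t.1 : ℕ) • eT ⟨0, by omega⟩ + (if t.2 = 2 then eT ⟨1, by omega⟩ else 0),
    if t.2 = 1 then ⟨1, by omega⟩ else ⟨0, by omega⟩)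

/-- Geometry of the lassos. -/
def StmtGeo : Prop :=
  ∀ (D l k : ℕ) [NeZero l] (hD : 2 ≤ D),
    (k + 1 < l → ∀ x y : Fin D → ZMod l, k + 1 < dT x y →
      Function.Injective (Sum.elim (lk hD x) (lk hD y) : Tm k ⊕ Tm k → Ed D l)) ∧
    (∀ x y : Fin D → ZMod l, dT x y ≤ D * l) ∧
    ∀ (G : Type) [Group G] (γ : (Fin D → ZMod l) → G) (U : Ed D l → G) (x : Fin D → ZMod l)
      (i : Fin k), Wl (gt γ U ∘ lk hD x) i = γ x * Wl (U ∘ lk hD x) i * (γ x)⁻¹

/-- the links `(i, 2)`, `i < k` -/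
def Sc (k : ℕ) : Finset (Tm k) := Finset.univ.image fun i : Fin k => (i.castSucc, 2)

/-- the links `(i, 2)`, `i < k`, in both parts -/
def Sc2 (k : ℕ) : Finset (Tm k ⊕ Tm k) := (Sc k).disjSum (Sc k)

/-- The lassos are independent and uniformly distributed for given links outside `Sc2`. -/
def StmtHaar : Prop :=
  ∀ (G : Type) [Group G] [TopologicalSpace G] [IsTopologicalGroup G] [CompactSpace G]
    [SecondCountableTopology G] [MeasurableSpace G] [BorelSpace G] (μ : Measure G)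
    [IsProbabilityMeasure μ] [μ.IsMulLeftInvariant] [μ.IsMulRightInvariant] (k : ℕ)
    (H : (Fin k → G) → (Fin k → G) → ℝ) (U : Tm k ⊕ Tm k → G),
    Continuous (fun p : (Fin k → G) × (Fin k → G) => H p.1 p.2) →
    ∫ V : Tm k ⊕ Tm k → G, H (Wl (mix (Sc2 k) V U ∘ Sum.inl)) (Wl (mix (Sc2 k) V U ∘ Sum.inr))
      ∂(Measure.pi fun _ => μ) =
    ∫ V : Tm k ⊕ Tm k → G, H (fun i => V (Sum.inl (i.castSucc, 2)))
      (fun i => V (Sum.inr (i.castSucc, 2))) ∂(Measure.pi fun _ => μ)

end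

end Pool.Agent.W653.SC
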