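import Mathlib
import Pool.Agent.W653.SC.Defs

/-!
# Smooth dependence of integrals over compact spaces on parameters
-/

open MeasureTheory Filter Topology
open scoped ContDiff

namespace Pool.Agent.W653.SC

set_option linter.unusedSectionVars false

noncomputable section

section

variable {X P E : Type} [TopologicalSpace X] [CompactSpace X] [SecondCountableTopology X]
    [MeasurableSpace X] [BorelSpace X] (ν : Measure X) [IsFiniteMeasure ν]
    [NormedAddCommGroup P] [NormedSpace ℝ P] [NormedAddCommGroup E] [NormedSpace ℝ E]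

/-- local boundedness, uniformly over the compact space -/
lemma par_bound {H : Type} [NormedAddCommGroup H] {c : X → P} (hc : Continuous c) {ψ : P × E → H}
    (hψ : Continuous ψ) (M0 : E) :
    ∃ C : ℝ, ∀ᶠ M in 𝓝 M0, ∀ x, ‖ψ (c x, M)‖ ≤ C := by
  have hcont : Continuous fun x => ‖ψ (c x, M0)‖ :=
    (hψ.comp (hc.prodMk continuous_const)).norm
  obtain ⟨C, hC⟩ := (isCompact_univ.image hcont).bddAbove
  refine ⟨C + 1, ?_⟩
  have h1 : ∀ᶠ M in 𝓝 M0, ∀ x ∈ (Set.univ : Set X), ‖ψ (c x, M)‖ < C + 1 := by
    refine isCompact_univ.eventually_forall_of_forall_eventually fun x _ => ?_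
    have h2 : Continuous fun p : E × X => ‖ψ (c p.2, p.1)‖ :=
      (hψ.comp ((hc.comp continuous_snd).prodMk continuous_fst)).norm
    have h3 : ‖ψ (c x, M0)‖ < C + 1 := by
      have := hC ⟨x, trivial, rfl⟩
      dsimp only at this
      linarith
    exact h2.continuousAt.eventually (gt_mem_nhds h3)
  exact h1.mono fun M hM x => (hM x trivial).le

lemma par_meas {H : Type} [NormedAddCommGroup H] {c : X → P} (hc : Continuous c) {ψ : P × E → H}
    (hψ : Continuous ψ) (M : E) : AEStronglyMeasurable (fun x => ψ (c x, M)) ν :=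
  Continuous.aestronglyMeasurable (hψ.comp (hc.prodMk continuous_const))

lemma par_int {H : Type} [NormedAddCommGroup H] {c : X → P} (hc : Continuous c)
    {ψ : P × E → H} (hψ : Continuous ψ) (M : E) : Integrable (fun x => ψ (c x, M)) ν := by
  obtain ⟨C, hC⟩ := par_bound hc hψ M
  exact Integrable.of_bound (par_meas ν hc hψ M) C (Eventually.of_forall (hC.self_of_nhds))

lemma par_nat (n : ℕ) : ∀ {H : Type} [NormedAddCommGroup H] [NormedSpace ℝ H] [CompleteSpace H]
    {c : X → P} {ψ : P × E → H}, Continuous c → ContDiff ℝ ∞ ψ →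
    ContDiff ℝ n fun M : E => ∫ x, ψ (c x, M) ∂ν := by
  induction n with
  | zero =>
    intro H _ _ _ c ψ hc hψ
    have h0 : ((0 : ℕ) : WithTop ℕ∞) = 0 := rfl
    rw [h0, contDiff_zero, continuous_iff_continuousAt]
    intro M0
    obtain ⟨C, hC⟩ := par_bound hc hψ.continuous M0
    refine continuousAt_of_dominated (bound := fun _ => C)
      (Eventually.of_forall fun M => par_meas ν hc hψ.continuous M)
      (hC.mono fun M hM => Eventually.of_forall hM) (integrable_const C)
      (Eventually.of_forall fun x => ?_)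
    exact (hψ.continuous.comp (continuous_const.prodMk continuous_id)).continuousAt
  | succ n ih =>
    intro H _ _ _ c ψ hc hψ
    have h0 : ((n + 1 : ℕ) : WithTop ℕ∞) = (n : WithTop ℕ∞) + 1 := by push_cast; rfl
    rw [h0, contDiff_succ_iff_hasFDerivAt]
    obtain ⟨ψ', hψ'⟩ : ∃ ψ' : P × E → (E →L[ℝ] H), ψ' = fun p =>
      (fderiv ℝ ψ p).comp (ContinuousLinearMap.inr ℝ P E) := ⟨_, rfl⟩
    have hs : ContDiff ℝ ∞ ψ' := by
      rw [hψ']
      exact (hψ.fderiv_right (m := ∞) (by simp)).clm_comp contDiff_const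
    refine ⟨fun M => ∫ x, ψ' (c x, M) ∂ν, ih hc hs, fun M0 => ?_⟩
    obtain ⟨C, hC⟩ := par_bound hc hs.continuous M0
    refine hasFDerivAt_integral_of_dominated_of_fderiv_le (F := fun M x => ψ (c x, M))
      (F' := fun M x => ψ' (c x, M)) (bound := fun _ => C) hC
      (Eventually.of_forall fun M => par_meas ν hc hψ.continuous M)
      (par_int ν hc hψ.continuous M0) (par_meas ν hc hs.continuous M0)
      (Eventually.of_forall fun x M hM => hM x) (integrable_const C)
      (Eventually.of_forall fun x M _ => ?_)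
    have h1 : HasFDerivAt ψ (fderiv ℝ ψ (c x, M)) (c x, M) :=
      (hψ.differentiable (by simp) (c x, M)).hasFDerivAt
    have h2 : HasFDerivAt (fun M : E => (c x, M)) (ContinuousLinearMap.inr ℝ P E) M := by
      exact (hasFDerivAt_const (𝕜 := ℝ) (c x) M).prodMk (hasFDerivAt_id (𝕜 := ℝ) M)
    rw [hψ']
    exact h1.comp M h2

end

theorem par : StmtPar := by
  intro X P E H _ _ _ _ _ ν _ _ _ _ _ _ _ _ c ψ hc hψ
  rw [contDiff_infty]
  intro n
  exact par_nat ν n hc hψ

end

end Pool.Agent.W653.SC
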