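import Mathlib
import Pool.Agent.W653.SC.Par

/-!
# Averages over some of the links
-/

open MeasureTheory Matrix
open scoped Matrix.Norms.Frobenius ContDiff

namespace Pool.Agent.W653.SC

open Pool.Agent.H906R3.YM Pool.Agent.W58 Pool.Agent.W653.CF

set_option linter.unusedSectionVars false

noncomputable section

lemma mix_mix {E G : Type} [DecidableEq E] (S : Finset E) (V V' U : E → G) :
    mix S V (mix S V' U) = mix S V U := by
  funext e
  unfold mix
  split_ifs <;> rfl

lemma mix_congr {E G : Type} [DecidableEq E] (S : Finset E) (V U U' : E → G)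
    (h : ∀ e, e ∉ S → U e = U' e) : mix S V U = mix S V U' := by
  funext e
  unfold mix
  split_ifs with h1
  · rfl
  · exact h e h1

lemma mix_out {E G : Type} [DecidableEq E] (S : Finset E) (V U : E → G) {e : E} (h : e ∉ S) :
    mix S V U e = U e := if_neg h

lemma mix_in {E G : Type} [DecidableEq E] (S : Finset E) (V U : E → G) {e : E} (h : e ∈ S) :
    mix S V U e = V e := if_pos h

lemma Indep.mix {E G : Type} [DecidableEq E] {S : Finset E} {F : (E → G) → ℝ}
    (h : Indep S F) (V U : E → G) : F (mix S V U) = F U :=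
  h _ _ fun _ he => mix_out S V U he

section meas

variable {E G : Type} [Fintype E] [DecidableEq E] [MeasurableSpace G]
  (μ : Measure G) [IsProbabilityMeasure μ]

lemma measurable_mix (S : Finset E) :
    Measurable fun p : (E → G) × (E → G) => mix S p.1 p.2 := by
  refine measurable_pi_lambda _ fun e => ?_
  unfold mix
  split_ifs
  · exact (measurable_pi_apply e).comp measurable_fst
  · exact (measurable_pi_apply e).comp measurable_snd

lemma mp_mix (S : Finset E) : MeasurePreserving
    (fun p : (E → G) × (E → G) => mix S p.1 p.2) ((ME μ E).prod (ME μ E)) (ME μ E) := by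
  refine ⟨measurable_mix S, ?_⟩
  refine Eq.symm (Measure.pi_eq fun s hs => ?_)
  rw [Measure.map_apply (measurable_mix S) (MeasurableSet.univ_pi hs)]
  have h1 : (fun p : (E → G) × (E → G) => mix S p.1 p.2) ⁻¹' (Set.pi Set.univ s) =
      (Set.pi Set.univ fun e => if e ∈ S then s e else Set.univ) ×ˢ
        (Set.pi Set.univ fun e => if e ∈ S then Set.univ else s e) := by
    ext p
    simp only [Set.mem_preimage, Set.mem_pi, Set.mem_univ, true_implies, Set.mem_prod]
    constructor
    · intro h
      refine ⟨fun e => ?_, fun e => ?_⟩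
      · have := h e
        unfold mix at this
        split_ifs at this ⊢ with he
        · exact this
        · trivial
      · have := h e
        unfold mix at this
        split_ifs at this ⊢ with he
        · trivial
        · exact this
    · rintro ⟨h1, h2⟩ e
      have h3 := h1 e
      have h4 := h2 e
      unfold mix
      split_ifs at h3 h4 ⊢ with he
      · exact h3
      · exact h4
  rw [h1, Measure.prod_prod, Measure.pi_pi, Measure.pi_pi, ← Finset.prod_mul_distrib]
  refine Finset.prod_congr rfl fun e _ => ?_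
  split_ifs
  · rw [measure_univ, mul_one]
  · rw [measure_univ, one_mul]

lemma mp_comp {T : Type} [Fintype T] [DecidableEq T] {ι : T → E} (hι : Function.Injective ι) :
    MeasurePreserving (fun V : E → G => V ∘ ι) (ME μ E) (ME μ T) := by
  have hm : Measurable fun V : E → G => V ∘ ι :=
    measurable_pi_lambda _ fun t => measurable_pi_apply (ι t)
  refine ⟨hm, ?_⟩
  refine Eq.symm (Measure.pi_eq fun s hs => ?_)
  rw [Measure.map_apply hm (MeasurableSet.univ_pi hs)]
  obtain ⟨s', hs'⟩ : ∃ s' : E → Set G, ∀ e, s' e = {g | ∀ t, ι t = e → g ∈ s t} :=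
    ⟨fun e => {g | ∀ t, ι t = e → g ∈ s t}, fun _ => rfl⟩
  have h1 : (fun V : E → G => V ∘ ι) ⁻¹' (Set.pi Set.univ s) = Set.pi Set.univ s' := by
    ext V
    simp only [Set.mem_preimage, Set.mem_pi, Set.mem_univ, true_implies, hs', Set.mem_ofPred_eq]
    constructor
    · rintro h e t rfl
      exact h t
    · intro h t
      exact h (ι t) t rfl
  have h2 : ∀ t, s' (ι t) = s t := by
    intro t
    rw [hs']
    ext g
    constructor
    · intro h; exact h t rfl
    · intro h t' ht'
      rw [hι ht']; exact h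
  have h3 : ∀ e, (∀ t, ι t ≠ e) → s' e = Set.univ := by
    intro e he
    rw [hs']
    ext g
    simp only [Set.mem_ofPred_eq, Set.mem_univ, iff_true]
    intro t ht
    exact absurd ht (he t)
  rw [h1, Measure.pi_pi]
  have h4 : ∏ e, μ (s' e) = ∏ e ∈ Finset.univ.image ι, μ (s' e) := by
    refine (Finset.prod_subset (Finset.subset_univ _) fun e _ he => ?_).symm
    rw [h3 e (fun t ht => he (Finset.mem_image.2 ⟨t, Finset.mem_univ _, ht⟩)), measure_univ]
  rw [h4, Finset.prod_image fun a _ b _ hab => hι hab]
  exact Finset.prod_congr rfl fun t _ => by rw [h2]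

end meas

variable {G : Type} [Group G] [TopologicalSpace G] {N n : ℕ} {L : LD G N n}
  {E : Type} [Fintype E] [DecidableEq E]
  [IsTopologicalGroup G] [CompactSpace G] [SecondCountableTopology G]
  [MeasurableSpace G] [BorelSpace G] (μ : Measure G) [IsProbabilityMeasure μ]

lemma mat_mix (S : Finset E) (V U : E → G) : L.mat (mix S V U) = mix S (L.mat V) (L.mat U) := by
  funext e
  unfold LD.mat mix
  split_ifs <;> rfl

lemma contDiff_mix (S : Finset E) : ContDiff ℝ ∞
    fun p : (E → Mat N) × (E → Mat N) => mix S p.1 p.2 := by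
  rw [contDiff_pi]
  intro e
  unfold mix
  split_ifs
  · exact (contDiff_apply ℝ (Mat N) e).comp contDiff_fst
  · exact (contDiff_apply ℝ (Mat N) e).comp contDiff_snd

lemma mat_cont : Continuous fun V : E → G => L.mat V :=
  continuous_pi fun e => L.cont.comp (continuous_apply e)

lemma continuous_mix (S : Finset E) : Continuous
    fun p : (E → G) × (E → G) => mix S p.1 p.2 := by
  refine continuous_pi fun e => ?_
  unfold mix
  split_ifs
  · exact (continuous_apply e).comp continuous_fst
  · exact (continuous_apply e).comp continuous_snd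

lemma continuous_mix_left (S : Finset E) (U : E → G) : Continuous
    fun V : E → G => mix S V U :=
  (continuous_mix S).comp (continuous_id.prodMk continuous_const)

/-- the average over the links of `S` -/
def avg (S : Finset E) (F : Sm L E) : Sm L E :=
  ⟨fun U => ∫ V, F.1 (mix S V U) ∂(ME μ E), by
    obtain ⟨F, f, hf, h⟩ := F
    refine ⟨fun M => ∫ V : E → G, f (mix S (L.mat V) M) ∂(ME μ E), ?_, fun U => ?_⟩
    · exact par (E → G) (E → Mat N) (E → Mat N) ℝ (ME μ E) (fun V => L.mat V)
        (fun p => f (mix S p.1 p.2)) mat_cont (hf.comp (contDiff_mix S))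
    · refine integral_congr_ae (Filter.Eventually.of_forall fun V => ?_)
      show F (mix S V U) = f (mix S (L.mat V) (L.mat U))
      rw [← mat_mix]; exact h _⟩

variable {μ}

lemma avg_apply (S : Finset E) (F : Sm L E) (U : E → G) :
    (avg μ S F).1 U = ∫ V, F.1 (mix S V U) ∂(ME μ E) := rfl

lemma int_mix (S : Finset E) (F : Sm L E) (U : E → G) :
    Integrable (fun V => F.1 (mix S V U)) (ME μ E) :=
  integrable_cont μ ((Sm_cont F).comp (continuous_mix_left S U))

lemma avg_add (S : Finset E) (F H : Sm L E) : avg μ S (F + H) = avg μ S F + avg μ S H := by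
  refine ev_ext fun U => ?_
  rw [map_add]
  exact integral_add (int_mix S F U) (int_mix S H U)

lemma avg_smul (S : Finset E) (c : ℝ) (F : Sm L E) : avg μ S (c • F) = c • avg μ S F := by
  refine ev_ext fun U => ?_
  rw [map_smul]
  exact integral_const_mul c _

lemma avg_indep (S : Finset E) (F : Sm L E) : Indep S (avg μ S F).1 := by
  intro U V h
  rw [avg_apply, avg_apply]
  refine integral_congr_ae (Filter.Eventually.of_forall fun W => ?_)
  show F.1 (mix S W U) = F.1 (mix S W V)
  rw [mix_congr S W U V h]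

lemma avg_mul {S : Finset E} {F : Sm L E} (hF : Indep S F.1) (H : Sm L E) :
    avg μ S (F * H) = F * avg μ S H := by
  refine ev_ext fun U => ?_
  rw [map_mul]
  show ∫ V, F.1 (mix S V U) * H.1 (mix S V U) ∂(ME μ E) = F.1 U * ∫ V, H.1 (mix S V U) ∂(ME μ E)
  rw [← integral_const_mul]
  refine integral_congr_ae (Filter.Eventually.of_forall fun V => ?_)
  show F.1 (mix S V U) * H.1 (mix S V U) = F.1 U * H.1 (mix S V U)
  rw [hF.mix]

lemma avg_of_indep {S : Finset E} {F : Sm L E} (hF : Indep S F.1) : avg μ S F = F := by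
  refine ev_ext fun U => ?_
  show ∫ V, F.1 (mix S V U) ∂(ME μ E) = F.1 U
  have h1 : ∀ V, F.1 (mix S V U) = F.1 U := fun V => hF.mix V U
  simp only [h1]
  rw [integral_const]
  simp

lemma avg_mono {S : Finset E} {F H : Sm L E} (h : ∀ U, F.1 U ≤ H.1 U) (U : E → G) :
    (avg μ S F).1 U ≤ (avg μ S H).1 U :=
  integral_mono (int_mix S F U) (int_mix S H U) fun _ => h _

lemma avg_nonneg {S : Finset E} {F : Sm L E} (h : ∀ U, 0 ≤ F.1 U) (U : E → G) :
    0 ≤ (avg μ S F).1 U := integral_nonneg fun _ => h _

/-- the total integral of an average -/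
lemma I_avg (S : Finset E) (F : Sm L E) : L.I μ (avg μ S F) = L.I μ F := by
  rw [I_apply, I_apply]
  have h0 : Continuous fun p : (E → G) × (E → G) => F.1 (mix S p.1 p.2) :=
    (Sm_cont F).comp (continuous_mix S)
  have h1 : Integrable (fun p : (E → G) × (E → G) => F.1 (mix S p.1 p.2))
      ((ME μ E).prod (ME μ E)) :=
    h0.integrable_of_hasCompactSupport (HasCompactSupport.of_compactSpace _)
  have h2 : ∫ U, F.1 U ∂(ME μ E) = ∫ p, F.1 (mix S p.1 p.2) ∂((ME μ E).prod (ME μ E)) := by
    have h3 := integral_map (μ := (ME μ E).prod (ME μ E)) (measurable_mix S).aemeasurable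
      (f := F.1) (Sm_cont F).aestronglyMeasurable
    rw [(mp_mix μ S).map_eq] at h3
    exact h3
  rw [h2, integral_prod_symm _ h1]
  rfl

lemma I_mul_avg {S : Finset E} {F : Sm L E} (hF : Indep S F.1) (H : Sm L E) :
    L.I μ (F * H) = L.I μ (F * avg μ S H) := by
  rw [← I_avg S, avg_mul hF]

/-- Cauchy-Schwarz inequality for the average -/
lemma avg_cs (S : Finset E) (F H : Sm L E) (U : E → G) :
    (avg μ S (F * H)).1 U ^ 2 ≤ (avg μ S (F * F)).1 U * (avg μ S (H * H)).1 U := by
  refine sq_le_of_forall fun t => ?_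
  have h1 : 0 ≤ (avg μ S ((F + t • H) * (F + t • H))).1 U :=
    avg_nonneg (fun V => mul_self_nonneg _) U
  have h2 : (F + t • H) * (F + t • H) = F * F + ((2 * t) • (F * H) + (t ^ 2) • (H * H)) := by
    simp only [Algebra.smul_def, map_pow, map_mul, map_ofNat]; ring
  rw [h2, avg_add, avg_add, avg_smul, avg_smul] at h1
  have h3 : (avg μ S (F * F) + ((2 * t) • avg μ S (F * H) + (t ^ 2) • avg μ S (H * H))).1 U =
      (avg μ S (F * F)).1 U + (2 * t * (avg μ S (F * H)).1 U + t ^ 2 * (avg μ S (H * H)).1 U) := rfl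
  rw [h3] at h1
  linarith

/-! ### derivatives -/

lemma shift_mix {S : Finset E} {e : E} (he : e ∉ S) (a : Fin n) (t : ℝ) (V U : E → G) :
    mix S V (L.shift e a t U) = L.shift e a t (mix S V U) := by
  funext e'
  unfold LD.shift mix
  by_cases h : e' ∈ S
  · have hne : e' ≠ e := fun hh => he (hh ▸ h)
    rw [if_pos h, Pi.mul_apply, if_pos h, Pi.mulSingle_eq_of_ne hne, one_mul]
  · rw [if_neg h, Pi.mul_apply, Pi.mul_apply, if_neg h]

lemma Dv_indep {S : Finset E} {F : Sm L E} (hF : Indep S F.1) (j : E × Fin n) :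
    Indep S (L.Dv j F).1 := by
  intro U V h
  rw [Dv_apply, Dv_apply]
  unfold LD.dF
  congr 1
  funext t
  refine hF _ _ fun e he => ?_
  unfold LD.shift
  rw [Pi.mul_apply, Pi.mul_apply, h e he]

lemma Dv_indep_zero {S : Finset E} {F : Sm L E} (hF : Indep S F.1) {j : E × Fin n}
    (hj : j.1 ∈ S) : L.Dv j F = 0 := by
  refine ev_ext fun U => ?_
  rw [map_zero]
  show (L.Dv j F).1 U = 0
  rw [Dv_apply]
  unfold LD.dF
  have h1 : (fun t => F.1 (L.shift j.1 j.2 t U)) = fun _ => F.1 U := by
    funext t
    refine hF _ _ fun e he => ?_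
    unfold LD.shift
    rw [Pi.mul_apply, Pi.mulSingle_eq_of_ne (fun hh => he (by rw [hh]; exact hj)), one_mul]
  rw [h1]
  exact deriv_const _ _

/-- The average commutes with the derivatives in the other variables. -/
lemma Dv_avg {S : Finset E} {j : E × Fin n} (hj : j.1 ∉ S) (F : Sm L E) :
    L.Dv j (avg μ S F) = avg μ S (L.Dv j F) := by
  refine ev_ext fun U => ?_
  show (L.Dv j (avg μ S F)).1 U = (avg μ S (L.Dv j F)).1 U
  rw [Dv_apply]
  unfold LD.dF
  have h1 : HasDerivAt (fun t => ∫ V, F.1 (mix S V (L.shift j.1 j.2 t U)) ∂(ME μ E))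
      (∫ V, (L.Dv j F).1 (mix S V U) ∂(ME μ E)) 0 := by
    obtain ⟨C, hC⟩ := (isCompact_univ.image (Sm_cont (L.Dv j F)).norm).bddAbove
    have h2 := hasDerivAt_integral_of_dominated_loc_of_deriv_le (μ := ME μ E)
      (F := fun t V => F.1 (mix S V (L.shift j.1 j.2 t U)))
      (F' := fun t V => (L.Dv j F).1 (mix S V (L.shift j.1 j.2 t U)))
      (x₀ := (0 : ℝ)) (s := Set.univ) (bound := fun _ => C) Filter.univ_mem
      (Filter.Eventually.of_forall fun t => (int_mix S F _).aestronglyMeasurable)
      (int_mix S F _) (int_mix S (L.Dv j F) _).aestronglyMeasurable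
      (Filter.Eventually.of_forall fun V t _ => hC ⟨_, trivial, rfl⟩) (integrable_const C)
      (Filter.Eventually.of_forall fun V t _ => by
        simp only [shift_mix hj]
        have h3 := hasDerivAt_dF F.2 j.1 j.2 (mix S V U) t
        exact h3)
    have h4 := h2.2
    simp only [L.shift_zero] at h4
    exact h4
  exact h1.deriv

end

end Pool.Agent.W653.SC
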