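import Mathlib
import Pool.Agent.W653.SC.Avg
import Pool.Agent.H906R3.YM.Approx

/-!
# Gauge invariant functions of low energy which do not depend on a few links
-/

open MeasureTheory Matrix
open scoped Matrix.Norms.Frobenius ContDiff

namespace Pool.Agent.W653.SC

open Pool.Agent.H906R3.YM Pool.Agent.W58 Pool.Agent.W653.CF

set_option linter.unusedSectionVars false

noncomputable section

variable {G : Type} [Group G] [TopologicalSpace G] {N n : ℕ} {L : LD G N n}
  [IsTopologicalGroup G] [CompactSpace G] [SecondCountableTopology G]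
  [MeasurableSpace G] [BorelSpace G] (μ : Measure G) [IsProbabilityMeasure μ]

section gen

variable {E : Type} [Fintype E] [DecidableEq E]

/-- the square root of `s ^ 2` plus the average of the square -/
def rtA (S : Finset E) (F : Sm L E) (s : ℝ) (hs : 0 < s) : Sm L E :=
  ⟨fun U => Real.sqrt (s ^ 2 + (avg μ S (F * F)).1 U), by
    obtain ⟨F, f, hf, h⟩ := F
    refine ⟨fun M => Real.sqrt (s ^ 2 +
      ∫ V : E → G, f (mix S (L.mat V) M) * f (mix S (L.mat V) M) ∂(ME μ E)), ?_, fun U => ?_⟩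
    · have h1 := par (E → G) (E → Mat N) (E → Mat N) ℝ (ME μ E) (fun V => L.mat V)
        (fun p => f (mix S p.1 p.2) * f (mix S p.1 p.2)) mat_cont
        ((hf.comp (contDiff_mix S)).mul (hf.comp (contDiff_mix S)))
      refine ContDiff.sqrt (contDiff_const.add h1) fun M => ?_
      have h2 : 0 ≤ ∫ V : E → G, f (mix S (L.mat V) M) * f (mix S (L.mat V) M) ∂(ME μ E) :=
        integral_nonneg fun V => mul_self_nonneg _
      positivity
    · have h1 : (avg μ S ((⟨F, f, hf, h⟩ : Sm L E) * ⟨F, f, hf, h⟩)).1 U =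
          ∫ V : E → G, f (mix S (L.mat V) (L.mat U)) * f (mix S (L.mat V) (L.mat U))
            ∂(ME μ E) := by
        refine integral_congr_ae (Filter.Eventually.of_forall fun V => ?_)
        show F (mix S V U) * F (mix S V U) = _
        rw [h, mat_mix]
      dsimp only
      rw [h1]⟩

variable {μ} {S : Finset E} {F : Sm L E} {s : ℝ} {hs : 0 < s}

lemma avgsq_nonneg (U : E → G) : 0 ≤ (avg μ S (F * F)).1 U :=
  avg_nonneg (fun V => mul_self_nonneg (F.1 V)) U

lemma rtA_sq : rtA μ S F s hs * rtA μ S F s hs = algebraMap ℝ _ (s ^ 2) + avg μ S (F * F) := by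
  refine ev_ext fun U => ?_
  rw [map_mul, map_add]
  show Real.sqrt (s ^ 2 + (avg μ S (F * F)).1 U) * Real.sqrt (s ^ 2 + (avg μ S (F * F)).1 U) =
    s ^ 2 + (avg μ S (F * F)).1 U
  refine Real.mul_self_sqrt ?_
  have := avgsq_nonneg (μ := μ) (S := S) (F := F) U
  positivity

lemma rtA_pos (U : E → G) : 0 < (rtA μ S F s hs).1 U := by
  refine Real.sqrt_pos.2 ?_
  have := avgsq_nonneg (μ := μ) (S := S) (F := F) U
  positivity

lemma rtA_indep : Indep S (rtA μ S F s hs).1 := by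
  intro U V h
  show Real.sqrt (s ^ 2 + (avg μ S (F * F)).1 U) = Real.sqrt (s ^ 2 + (avg μ S (F * F)).1 V)
  rw [avg_indep S (F * F) U V h]

/-- the derivatives of the square root -/
lemma rtA_Dv (j : E × Fin n) (U : E → G) :
    (L.Dv j (rtA μ S F s hs)).1 U ^ 2 ≤ (avg μ S (L.Dv j F * L.Dv j F)).1 U := by
  have h0 : 0 ≤ (avg μ S (L.Dv j F * L.Dv j F)).1 U :=
    avg_nonneg (fun V => mul_self_nonneg ((L.Dv j F).1 V)) U
  by_cases hj : j.1 ∈ S
  · have h1 : L.Dv j (rtA μ S F s hs) = 0 := Dv_indep_zero rtA_indep hj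
    rw [h1]
    have h2 : (0 : Sm L E).1 U = 0 := rfl
    rw [h2]
    simpa using h0
  · obtain ⟨R, hR⟩ : ∃ R, R = rtA μ S F s hs := ⟨_, rfl⟩
    have h1 : (2 : ℝ) • (R * L.Dv j R) = (2 : ℝ) • avg μ S (F * L.Dv j F) := by
      have h2 := congrArg (L.Dv j) (rtA_sq (μ := μ) (S := S) (F := F) (hs := hs))
      rw [map_add, Derivation.map_algebraMap, zero_add, Dv_avg hj, ← hR, Dsq, Dsq,
        avg_smul] at h2
      exact h2
    have h2 : R.1 U * (L.Dv j R).1 U = (avg μ S (F * L.Dv j F)).1 U := by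
      have h3 : 2 * (R.1 U * (L.Dv j R).1 U) = 2 * (avg μ S (F * L.Dv j F)).1 U :=
        congrArg (fun v : Sm L E => v.1 U) h1
      linarith
    have h3 := avg_cs (μ := μ) S F (L.Dv j F) U
    rw [← h2] at h3
    have h4 : (avg μ S (F * F)).1 U ≤ R.1 U ^ 2 := by
      have h5 : R.1 U * R.1 U = s ^ 2 + (avg μ S (F * F)).1 U := by
        have h6 := rtA_sq (μ := μ) (S := S) (F := F) (hs := hs)
        rw [← hR] at h6
        exact congrArg (fun v : Sm L E => v.1 U) h6
      rw [sq, h5]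
      nlinarith [sq_nonneg s]
    have h5 : 0 < R.1 U ^ 2 := by
      have := rtA_pos (μ := μ) (S := S) (F := F) (hs := hs) U
      rw [← hR] at this
      positivity
    have h6 : R.1 U ^ 2 * (L.Dv j R).1 U ^ 2 ≤
        R.1 U ^ 2 * (avg μ S (L.Dv j F * L.Dv j F)).1 U := by
      calc R.1 U ^ 2 * (L.Dv j R).1 U ^ 2 = (R.1 U * (L.Dv j R).1 U) ^ 2 := by ring
        _ ≤ (avg μ S (F * F)).1 U * (avg μ S (L.Dv j F * L.Dv j F)).1 U := h3
        _ ≤ _ := mul_le_mul_of_nonneg_right h4 h0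
    rw [← hR]
    exact le_of_mul_le_mul_left h6 h5

lemma rtA_Gam : L.I μ (Gam (L.Dv (E := E)) (rtA μ S F s hs) (rtA μ S F s hs)) ≤
    L.I μ (Gam (L.Dv (E := E)) F F) := by
  unfold Gam
  rw [map_sum, map_sum]
  refine Finset.sum_le_sum fun j _ => ?_
  rw [← I_avg S (L.Dv j F * L.Dv j F)]
  refine I_mono μ fun U => ?_
  rw [map_mul, ← sq]
  exact rtA_Dv j U

/-- the integral of a function which changes little against the square of the root -/
lemma rtA_pot {V : Sm L E} {c : ℝ} (hV : ∀ U W, |V.1 (mix S W U) - V.1 U| ≤ c) :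
    L.I μ (V * (rtA μ S F s hs * rtA μ S F s hs)) ≤
      L.I μ (V * (F * F)) + c * L.I μ (F * F) + s ^ 2 * L.I μ V := by
  rw [rtA_sq, mul_add, map_add]
  have e1 : L.I μ (V * algebraMap ℝ _ (s ^ 2)) = s ^ 2 * L.I μ V := by
    rw [mul_comm, ← Algebra.smul_def, map_smul, smul_eq_mul]
  have e2 : L.I μ (V * avg μ S (F * F)) = L.I μ (avg μ S V * (F * F)) := by
    rw [mul_comm, I_mul_avg (avg_indep S _) V, mul_comm, ← I_mul_avg (avg_indep S _)]
  have e3 : L.I μ (avg μ S V * (F * F)) ≤ L.I μ (V * (F * F) + c • (F * F)) := by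
    refine I_mono μ fun U => ?_
    rw [map_mul, map_add, map_mul (L.ev U) V, map_smul, smul_eq_mul, ← add_mul]
    refine mul_le_mul_of_nonneg_right ?_ (by rw [map_mul]; exact mul_self_nonneg _)
    show (∫ W, V.1 (mix S W U) ∂(ME μ E)) ≤ V.1 U + c
    have h1 : (∫ W, V.1 (mix S W U) ∂(ME μ E)) ≤ ∫ _W : E → G, (V.1 U + c) ∂(ME μ E) := by
      refine integral_mono (int_mix S V U) (integrable_const _) fun W => ?_
      have := (abs_le.1 (hV U W)).2
      show V.1 (mix S W U) ≤ V.1 U + c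
      linarith
    refine h1.trans (le_of_eq ?_)
    rw [integral_const]
    simp
  rw [map_add, map_smul, smul_eq_mul] at e3
  rw [e1, e2]
  linarith

end gen

section torus

variable {D l : ℕ} [NeZero l] [μ.IsMulLeftInvariant] [μ.IsMulRightInvariant] {μ}

lemma gt_mix (γ : (Fin D → ZMod l) → G) (S : Finset (Ed D l)) (V U : Ed D l → G) :
    gt γ (mix S V U) = mix S (gt γ V) (gt γ U) := by
  funext e
  unfold gt mix
  split_ifs <;> rfl

/-- The average of a gauge invariant function is gauge invariant. -/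
lemma avg_inv (S : Finset (Ed D l)) {F : Sm L (Ed D l)} (hF : Inv F) : Inv (avg μ S F) := by
  intro γ
  refine ev_ext fun U => ?_
  show ∫ V, F.1 (mix S V (gt γ U)) ∂(ME μ (Ed D l)) = ∫ V, F.1 (mix S V U) ∂(ME μ (Ed D l))
  have h := mp_gt (D := D) (l := l) μ γ
  have h2 := integral_map (μ := ME μ (Ed D l)) (f := fun V => F.1 (mix S V (gt γ U)))
    h.measurable.aemeasurable
    ((Sm_cont F).comp (continuous_mix_left S (gt γ U))).aestronglyMeasurable
  rw [h.map_eq] at h2
  rw [h2]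
  refine integral_congr_ae (Filter.Eventually.of_forall fun V => ?_)
  show F.1 (mix S (gt γ V) (gt γ U)) = F.1 (mix S V U)
  rw [← gt_mix]
  exact congrArg (fun v : Sm L (Ed D l) => v.1 (mix S V U)) (hF γ)

lemma rtA_inv {S : Finset (Ed D l)} {F : Sm L (Ed D l)} {s : ℝ} {hs : 0 < s} (hF : Inv F) :
    Inv (rtA μ S F s hs) := by
  intro γ
  refine ev_ext fun U => ?_
  show Real.sqrt (s ^ 2 + (avg μ S (F * F)).1 (gt γ U)) =
    Real.sqrt (s ^ 2 + (avg μ S (F * F)).1 U)
  have h1 : (avg μ S (F * F)).1 (gt γ U) = (avg μ S (F * F)).1 U :=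
    congrArg (fun v : Sm L (Ed D l) => v.1 U) (avg_inv S (hF.mul hF) γ)
  rw [h1]

lemma en_nonneg (g : ℝ) (u : Sm L (Ed D l)) : 0 ≤ en μ g u := by
  unfold en
  have h1 : 0 ≤ L.I μ (Gam (L.Dv (E := Ed D l)) u u) := by
    unfold Gam
    rw [map_sum]
    exact Finset.sum_nonneg fun j _ => I_sq_nonneg μ _
  have h2 : 0 ≤ L.I μ (VT L D l * (u * u)) := I_nonneg μ fun U => by
    rw [map_mul, map_mul, VT_apply]
    exact mul_nonneg (Finset.sum_nonneg fun _ _ => we_nonneg _) (mul_self_nonneg _)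
  positivity

lemma en_smul (g c : ℝ) (u : Sm L (Ed D l)) : en μ g (c • u) = c ^ 2 * en μ g u := by
  unfold en
  rw [Gam_smul, Gam_comm, Gam_smul, smul_mul_smul_comm, mul_smul_comm, map_smul, map_smul,
    map_smul, smul_eq_mul, smul_eq_mul, smul_eq_mul]
  ring

lemma VT_osc (hosc : StmtOsc) (S : Finset (Ed D l)) (U W : Ed D l → G) :
    |(VT L D l).1 (mix S W U) - (VT L D l).1 U| ≤ 8 * D * N * S.card :=
  hosc G N n D l L S _ _ fun _ he => mix_out S W U he

/-- Freeing the links of `S` costs at most a fixed energy for each link. -/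
theorem free (hosc : StmtOsc) (S : Finset (Ed D l)) {F : Sm L (Ed D l)} (hF : Inv F)
    (hn : L.I μ (F * F) = 1) (g : ℝ) {ε : ℝ} (hε : 0 < ε) :
    ∃ R : Sm L (Ed D l), Inv R ∧ L.I μ (R * R) = 1 ∧ Indep S R.1 ∧
      en μ g R ≤ en μ g F + 1 / g ^ 2 * (8 * D * N * S.card) + ε := by
  obtain ⟨a, ha⟩ : ∃ a, a = 1 / g ^ 2 * L.I μ (VT L D l) := ⟨_, rfl⟩
  have ha0 : 0 ≤ a := by
    rw [ha]
    refine mul_nonneg (by positivity) (I_nonneg μ fun U => ?_)
    rw [VT_apply]
    exact Finset.sum_nonneg fun _ _ => we_nonneg _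
  obtain ⟨s, hs⟩ : ∃ s, s = Real.sqrt (ε / (a + 1)) := ⟨_, rfl⟩
  have hs0 : 0 < s := by rw [hs]; exact Real.sqrt_pos.2 (by positivity)
  have hs2 : s ^ 2 * a ≤ ε := by
    rw [hs, Real.sq_sqrt (by positivity), div_mul_eq_mul_div, div_le_iff₀ (by positivity)]
    nlinarith
  obtain ⟨R, hR⟩ : ∃ R, R = rtA μ S F s hs0 := ⟨_, rfl⟩
  have hRn : L.I μ (R * R) = s ^ 2 + 1 := by
    rw [hR, rtA_sq, map_add, I_avg, hn, Algebra.algebraMap_eq_smul_one, map_smul, I_one,
      smul_eq_mul, mul_one]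
  have hRe : en μ g R ≤ en μ g F + 1 / g ^ 2 * (8 * D * N * S.card) + ε := by
    unfold en
    have h1 := rtA_Gam (μ := μ) (S := S) (F := F) (hs := hs0)
    have h2 := rtA_pot (μ := μ) (S := S) (F := F) (hs := hs0) (fun U W => VT_osc hosc S U W)
    rw [← hR] at h1 h2
    rw [hn, mul_one] at h2
    have h3 := mul_le_mul_of_nonneg_left h1 (show 0 ≤ g ^ 2 / 2 by positivity)
    have h4 := mul_le_mul_of_nonneg_left h2 (show 0 ≤ 1 / g ^ 2 by positivity)
    have h5 : 1 / g ^ 2 * (s ^ 2 * L.I μ (VT L D l)) ≤ ε := by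
      refine le_trans (le_of_eq ?_) hs2
      rw [ha]; ring
    linarith
  have hZ : 0 < s ^ 2 + 1 := by positivity
  obtain ⟨c, hc⟩ : ∃ c, c = (Real.sqrt (s ^ 2 + 1))⁻¹ := ⟨_, rfl⟩
  have hc2 : c ^ 2 = (s ^ 2 + 1)⁻¹ := by rw [hc, inv_pow, Real.sq_sqrt hZ.le]
  refine ⟨c • R, Inv.smul c (by rw [hR]; exact rtA_inv hF), ?_, ?_, ?_⟩
  · rw [smul_mul_smul_comm, map_smul, smul_eq_mul, ← sq, hc2, hRn, inv_mul_cancel₀ hZ.ne']
  · intro U V h
    show c * R.1 U = c * R.1 V
    rw [hR, rtA_indep U V h]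
  · rw [en_smul, hc2]
    have h1 : (s ^ 2 + 1)⁻¹ ≤ 1 := inv_le_one_of_one_le₀ (by nlinarith [sq_nonneg s])
    have h2 := mul_le_mul_of_nonneg_right h1 (en_nonneg (μ := μ) g R)
    rw [one_mul] at h2
    linarith

lemma arith_dress {a b B c x y g : ℝ} (h1 : x ≤ a + B) (h2 : y ≤ b + c) :
    g ^ 2 / 2 * x + 1 / g ^ 2 * y ≤
      g ^ 2 / 2 * a + 1 / g ^ 2 * b + 1 / g ^ 2 * c + g ^ 2 / 2 * B := by
  have e1 := mul_le_mul_of_nonneg_left h1 (show 0 ≤ g ^ 2 / 2 by positivity)
  have e2 := mul_le_mul_of_nonneg_left h2 (show 0 ≤ 1 / g ^ 2 by positivity)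
  linarith

/-- Multiplication of a function independent of the links of `S` by a family of functions whose
sum of squares has average `1`. -/
theorem dress (hosc : StmtOsc) (S : Finset (Ed D l)) {F : Sm L (Ed D l)}
    (hn : L.I μ (F * F) = 1) (hF : Indep S F.1) (g : ℝ) {κ : Type} [Fintype κ]
    (u : κ → Sm L (Ed D l)) (hu : avg μ S (∑ c, u c * u c) = 1) {B : ℝ}
    (hB : ∀ U, L.ev U (∑ c, Gam (L.Dv (E := Ed D l)) (u c) (u c)) ≤ B) :
    ∑ c, L.I μ ((u c * F) * (u c * F)) = 1 ∧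
      ∑ c, en μ g (u c * F) ≤ en μ g F + 1 / g ^ 2 * (8 * D * N * S.card) + g ^ 2 / 2 * B := by
  obtain ⟨q, hq⟩ : ∃ q, q = ∑ c, u c * u c := ⟨_, rfl⟩
  rw [← hq] at hu
  have hFF : Indep S (F * F).1 := fun U V h => by
    show F.1 U * F.1 U = F.1 V * F.1 V
    rw [hF U V h]
  have hq1 : ∀ c : κ, (u c * F) * (u c * F) = (F * F) * (u c * u c) := fun c => by ring
  have h1 : L.I μ ((F * F) * q) = 1 := by
    rw [I_mul_avg hFF, hu, mul_one, hn]
  refine ⟨?_, ?_⟩
  · rw [← map_sum, Finset.sum_congr rfl fun c _ => hq1 c, ← Finset.mul_sum, ← hq, h1]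
  · -- the kinetic part
    obtain ⟨Γ, hΓ⟩ : ∃ Γ, Γ = Gam (L.Dv (E := Ed D l)) F F := ⟨_, rfl⟩
    have hΓi : Indep S Γ.1 := by
      intro U V h
      rw [hΓ]
      have e1 : ∀ W, (Gam (L.Dv (E := Ed D l)) F F).1 W =
          ∑ j, (L.Dv j F).1 W * (L.Dv j F).1 W := by
        intro W
        show L.ev W (Gam (L.Dv (E := Ed D l)) F F) = _
        unfold Gam
        rw [map_sum]
        exact Finset.sum_congr rfl fun j _ => by rw [map_mul]; rfl
      rw [e1, e1]
      exact Finset.sum_congr rfl fun j _ => by rw [Dv_indep hF j U V h]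
    have k1 : ∑ c, Gam (L.Dv (E := Ed D l)) (u c * F) (u c * F) =
        Γ * q + (F * F) * (∑ c, Gam (L.Dv (E := Ed D l)) (u c) (u c)) +
          ∑ j, (F * L.Dv j F) * L.Dv j q := by
      rw [Finset.sum_congr rfl fun c _ => Gam_mul_self L.Dv (u c) F, Finset.sum_add_distrib,
        Finset.sum_add_distrib, ← Finset.sum_mul, ← Finset.sum_mul, ← hq, ← hΓ, mul_comm q Γ,
        mul_comm _ (F * F), Finset.sum_comm]
      congr 1
      refine Finset.sum_congr rfl fun j _ => ?_
      rw [← Finset.sum_mul, hq, map_sum, Finset.sum_congr rfl fun c _ => Dsq (L.Dv j) (u c),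
        ← Finset.smul_sum]
      simp only [Algebra.smul_def, map_ofNat]
      ring
    have k2 : ∀ j, L.I μ ((F * L.Dv j F) * L.Dv j q) = 0 := by
      intro j
      by_cases hj : j.1 ∈ S
      · rw [Dv_indep_zero hF hj, mul_zero, zero_mul, map_zero]
      · have h2 : Indep S (F * L.Dv j F).1 := fun U V h => by
          show F.1 U * (L.Dv j F).1 U = F.1 V * (L.Dv j F).1 V
          rw [hF U V h, Dv_indep hF j U V h]
        rw [I_mul_avg h2, ← Dv_avg hj, hu, Derivation.map_one_eq_zero, mul_zero, map_zero]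
    have k3 : L.I μ (Γ * q) = L.I μ Γ := by rw [I_mul_avg hΓi, hu, mul_one]
    have k4 : L.I μ ((F * F) * (∑ c, Gam (L.Dv (E := Ed D l)) (u c) (u c))) ≤ B := by
      have h2 : L.I μ ((F * F) * (∑ c, Gam (L.Dv (E := Ed D l)) (u c) (u c))) ≤
          L.I μ (B • (F * F)) := by
        refine I_mono μ fun U => ?_
        rw [map_mul, map_smul, smul_eq_mul, mul_comm B]
        refine mul_le_mul_of_nonneg_left (hB U) ?_
        rw [map_mul]; exact mul_self_nonneg _
      rwa [map_smul, hn, smul_eq_mul, mul_one] at h2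
    have k5 : ∑ c, L.I μ (Gam (L.Dv (E := Ed D l)) (u c * F) (u c * F)) ≤ L.I μ Γ + B := by
      rw [← map_sum, k1, map_add, map_add, map_sum, Finset.sum_congr rfl fun j _ => k2 j,
        Finset.sum_const_zero, add_zero, k3]
      linarith
    -- the potential
    have p1 : ∑ c, L.I μ (VT L D l * ((u c * F) * (u c * F))) ≤
        L.I μ (VT L D l * (F * F)) + 8 * D * N * S.card := by
      rw [← map_sum, ← Finset.mul_sum, Finset.sum_congr rfl fun c _ => hq1 c, ← Finset.mul_sum,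
        ← hq]
      obtain ⟨c, hc⟩ : ∃ c : ℝ, c = 8 * D * N * S.card := ⟨_, rfl⟩
      have h2 : L.I μ (VT L D l * (F * F * q)) ≤
          L.I μ (avg μ S (VT L D l) * (F * F) * q + c • (F * F * q)) := by
        refine I_mono μ fun U => ?_
        have hq0 : 0 ≤ L.ev U (F * F * q) := by
          rw [map_mul, map_mul, hq, map_sum]
          refine mul_nonneg (mul_self_nonneg _) (Finset.sum_nonneg fun c _ => ?_)
          rw [map_mul]; exact mul_self_nonneg _
        have h3 : L.ev U (VT L D l) ≤ L.ev U (avg μ S (VT L D l)) + c := by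
          show (VT L D l).1 U ≤ (∫ W, (VT L D l).1 (mix S W U) ∂(ME μ (Ed D l))) + c
          have h4 : ∫ _W : Ed D l → G, ((VT L D l).1 U - c) ∂(ME μ (Ed D l)) ≤
              ∫ W, (VT L D l).1 (mix S W U) ∂(ME μ (Ed D l)) := by
            refine integral_mono (integrable_const _) (int_mix S _ U) fun W => ?_
            have := (abs_le.1 (VT_osc hosc (L := L) S U W)).1
            show (VT L D l).1 U - c ≤ (VT L D l).1 (mix S W U)
            rw [hc]
            linarith
          rw [integral_const] at h4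
          simp only [probReal_univ, smul_eq_mul, one_mul] at h4
          linarith
        have h5 := mul_le_mul_of_nonneg_right h3 hq0
        rw [map_mul, map_add, map_smul, smul_eq_mul, mul_assoc (avg μ S (VT L D l)),
          map_mul (L.ev U) (avg μ S (VT L D l))]
        linarith
      have hVi : Indep S (avg μ S (VT L D l) * (F * F)).1 := fun U V h => by
        show (avg μ S (VT L D l)).1 U * (F.1 U * F.1 U) =
          (avg μ S (VT L D l)).1 V * (F.1 V * F.1 V)
        rw [avg_indep S (VT L D l) U V h, hF U V h]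
      have h6 : L.I μ (avg μ S (VT L D l) * (F * F)) = L.I μ (VT L D l * (F * F)) := by
        rw [mul_comm, ← I_mul_avg hFF, mul_comm]
      rw [map_add, map_smul, smul_eq_mul, h1, mul_one, I_mul_avg hVi, hu, mul_one, h6] at h2
      rw [← hc]
      exact h2
    have e0 : ∑ c, en μ g (u c * F) =
        g ^ 2 / 2 * ∑ c, L.I μ (Gam (L.Dv (E := Ed D l)) (u c * F) (u c * F)) +
          1 / g ^ 2 * ∑ c, L.I μ (VT L D l * ((u c * F) * (u c * F))) := by
      rw [Finset.mul_sum, Finset.mul_sum, ← Finset.sum_add_distrib]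
      rfl
    have e3 : en μ g F = g ^ 2 / 2 * L.I μ Γ + 1 / g ^ 2 * L.I μ (VT L D l * (F * F)) := by
      rw [hΓ]; rfl
    have e9 := arith_dress (g := g) k5 p1
    rw [← e0, ← e3] at e9
    exact e9

end torus

end

end Pool.Agent.W653.SC
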