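import Mathlib
import Pool.Agent.W653.SC.Free

/-!
# Screening charges: the covariant functions on the lattice
-/

open MeasureTheory Matrix
open scoped Matrix.Norms.Frobenius ContDiff

namespace Pool.Agent.W653.SC

open Pool.Agent.H906R3.YM Pool.Agent.W58 Pool.Agent.W653.CF

set_option linter.unusedSectionVars false

noncomputable section

variable {G : Type} [Group G] [TopologicalSpace G] {N n : ℕ} {L : LD G N n}

/-! ### smoothness of the lassos -/

section smooth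

variable {k : ℕ} {E : Type} [Fintype E] [DecidableEq E]

lemma SmG_link (e : E) : SmG L fun U : E → G => U e := SmM.link e

lemma SmG_Pp (ι : Tm k → E) (i : ℕ) : SmG L fun U : E → G => Pp (U ∘ ι) i := by
  induction i with
  | zero => exact SmG.const 1
  | succ i ih => exact SmG.mul ih (SmG_link _)

lemma SmG_Wl (ι : Tm k → E) (i : Fin k) : SmG L fun U : E → G => Wl (U ∘ ι) i := by
  have h := SmG_Pp (L := L) ι i
  exact (h.mul ((((SmG_link _).mul (SmG_link _)).mul (SmG_link _).inv).mul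
    (SmG_link _).inv)).mul h.inv

/-- composition of a smooth function with the lassos -/
lemma smooth_Wl {H : Type} [NormedAddCommGroup H] [NormedSpace ℝ H] (ι : Tm k → E)
    {f : (Fin k → Mat N) → H} (hf : ContDiff ℝ ∞ f) :
    ∃ Ft : (E → Mat N) → H, ContDiff ℝ ∞ Ft ∧
      ∀ U : E → G, f (fun i => L.rho (Wl (U ∘ ι) i)) = Ft (L.mat U) := by
  choose w hw h using fun i : Fin k => SmG_Wl (L := L) ι i
  refine ⟨fun A => f fun i => w i A, hf.comp (contDiff_pi.2 hw), fun U => ?_⟩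
  congr 1
  funext i
  exact h i U

end smooth

variable [IsTopologicalGroup G] [CompactSpace G] [SecondCountableTopology G]
  [MeasurableSpace G] [BorelSpace G] (μ : Measure G) [IsProbabilityMeasure μ]
  [μ.IsMulLeftInvariant] [μ.IsMulRightInvariant] [μ.IsOpenPosMeasure]

/-- the real coordinates of `a b*` for two vectors `a` and `b` -/
def vv {M : ℕ} (a b : Fin M → ℂ) (c : (Fin M × Fin M) × Bool) : ℝ :=
  if c.2 then (a c.1.1 * (starRingEnd ℂ) (b c.1.2)).re
    else (a c.1.1 * (starRingEnd ℂ) (b c.1.2)).im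

lemma sum_vv {M : ℕ} (a b : Fin M → ℂ) :
    ∑ c, vv a b c ^ 2 = (∑ i, ‖a i‖ ^ 2) * ∑ j, ‖b j‖ ^ 2 := by
  rw [Fintype.sum_prod_type, Fintype.sum_prod_type, Finset.sum_mul_sum]
  refine Finset.sum_congr rfl fun i _ => Finset.sum_congr rfl fun j _ => ?_
  rw [Fintype.sum_bool]
  unfold vv
  simp only [if_true, Bool.false_eq_true, if_false]
  have h1 : ‖a i‖ ^ 2 * ‖b j‖ ^ 2 = Complex.normSq (a i * (starRingEnd ℂ) (b j)) := by
    rw [map_mul, Complex.normSq_conj, Complex.normSq_eq_norm_sq, Complex.normSq_eq_norm_sq]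
  rw [h1, Complex.normSq_apply]
  ring

/-- The data on the part of the lattice. -/
theorem template (hhaar : StmtHaar) {M k : ℕ} (F : (Fin k → G) → Fin M → ℂ)
    (f : (Fin k → Mat N) → Fin M → ℂ) (hf : ContDiff ℝ ∞ f)
    (hFf : ∀ U, F U = f fun i => L.rho (U i)) (hne : ∃ U, F U ≠ 0) :
    ∃ (t : ℝ) (u : (Fin M × Fin M) × Bool → Sm L (Tm k ⊕ Tm k)),
      (∀ c U, (u c).1 U = t * vv (F (Wl (U ∘ Sum.inl))) (F (Wl (U ∘ Sum.inr))) c) ∧
      (∀ U, ∫ V, ∑ c, (u c).1 (mix (Sc2 k) V U) ^ 2 ∂(ME μ (Tm k ⊕ Tm k)) = 1) := by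
  have hFc : Continuous F := by
    have h1 : F = fun U => f fun i => L.rho (U i) := funext hFf
    rw [h1]
    exact hf.continuous.comp (continuous_pi fun i => L.cont.comp (continuous_apply i))
  obtain ⟨H, hH⟩ : ∃ H : (Fin k → G) → (Fin k → G) → ℝ, ∀ A A',
      H A A' = (∑ i, ‖F A i‖ ^ 2) * ∑ j, ‖F A' j‖ ^ 2 := ⟨_, fun _ _ => rfl⟩
  have hHc : Continuous fun p : (Fin k → G) × (Fin k → G) => H p.1 p.2 := by
    simp only [hH]
    have h1 : Continuous fun A : Fin k → G => ∑ i, ‖F A i‖ ^ 2 :=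
      continuous_finsetSum _ fun i _ => (((continuous_apply i).comp hFc).norm).pow 2
    exact (h1.comp continuous_fst).mul (h1.comp continuous_snd)
  obtain ⟨Z, hZ⟩ : ∃ Z, Z = ∫ V : Tm k ⊕ Tm k → G,
      H (fun i => V (Sum.inl (i.castSucc, 2))) (fun i => V (Sum.inr (i.castSucc, 2)))
        ∂(ME μ (Tm k ⊕ Tm k)) := ⟨_, rfl⟩
  have hZ0 : 0 < Z := by
    obtain ⟨A, hA⟩ := hne
    have hpos : 0 < ∑ i, ‖F A i‖ ^ 2 := by
      have h1 : ∃ i, F A i ≠ 0 := by
        by_contra hc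
        push Not at hc
        exact hA (funext hc)
      obtain ⟨i, hi⟩ := h1
      exact Finset.sum_pos' (fun j _ => by positivity) ⟨i, Finset.mem_univ _, by positivity⟩
    have hc1 : Continuous fun V : Tm k ⊕ Tm k → G =>
        H (fun i => V (Sum.inl (i.castSucc, 2))) (fun i => V (Sum.inr (i.castSucc, 2))) :=
      hHc.comp (Continuous.prodMk (continuous_pi fun i => continuous_apply _)
        (continuous_pi fun i => continuous_apply _))
    have h0 : ∀ V : Tm k ⊕ Tm k → G, 0 ≤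
        H (fun i => V (Sum.inl (i.castSucc, 2))) (fun i => V (Sum.inr (i.castSucc, 2))) := by
      intro V
      rw [hH]
      exact mul_nonneg (Finset.sum_nonneg fun _ _ => by positivity)
        (Finset.sum_nonneg fun _ _ => by positivity)
    obtain ⟨V0, hV0⟩ : ∃ V0 : Tm k ⊕ Tm k → G, ∀ s, V0 s =
        (Sum.elim id id s : Tm k).1.lastCases (motive := fun _ => G) 1 A := ⟨_, fun _ => rfl⟩
    have e1 : (fun i : Fin k => V0 (Sum.inl (i.castSucc, 2))) = A := by
      funext i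
      rw [hV0]
      simp
    have e2 : (fun i : Fin k => V0 (Sum.inr (i.castSucc, 2))) = A := by
      funext i
      rw [hV0]
      simp
    rw [hZ]
    refine hc1.integral_pos_of_hasCompactSupport_nonneg_nonzero
      (HasCompactSupport.of_compactSpace _) h0 (x := V0) ?_
    rw [e1, e2, hH]
    exact (mul_pos hpos hpos).ne'
  obtain ⟨t, ht⟩ : ∃ t, t = (Real.sqrt Z)⁻¹ := ⟨_, rfl⟩
  have ht2 : t ^ 2 * Z = 1 := by
    rw [ht, inv_pow, Real.sq_sqrt hZ0.le, inv_mul_cancel₀ hZ0.ne']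
  -- smoothness
  obtain ⟨f1, hf1, h1⟩ := smooth_Wl (L := L) (E := Tm k ⊕ Tm k) (G := G) Sum.inl hf
  obtain ⟨f2, hf2, h2⟩ := smooth_Wl (L := L) (E := Tm k ⊕ Tm k) (G := G) Sum.inr hf
  have hcoord : ∀ {g : (Tm k ⊕ Tm k → Mat N) → Fin M → ℂ}, ContDiff ℝ ∞ g → ∀ i,
      ContDiff ℝ ∞ fun A => g A i := fun hg i => contDiff_pi.1 hg i
  have hmem : ∀ c : (Fin M × Fin M) × Bool, (fun U : Tm k ⊕ Tm k → G =>
      t * vv (F (Wl (U ∘ Sum.inl))) (F (Wl (U ∘ Sum.inr))) c) ∈ Sm L (Tm k ⊕ Tm k) := by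
    intro c
    refine ⟨fun A => t * vv (f1 A) (f2 A) c, ?_, fun U => ?_⟩
    · refine contDiff_const.mul ?_
      unfold vv
      have h3 : ContDiff ℝ ∞ fun A => f1 A c.1.1 * (starRingEnd ℂ) (f2 A c.1.2) :=
        (hcoord hf1 _).mul ((Complex.conjCLE.contDiff).comp (hcoord hf2 _))
      split_ifs
      · exact Complex.reCLM.contDiff.comp h3
      · exact Complex.imCLM.contDiff.comp h3
    · show t * vv (F (Wl (U ∘ Sum.inl))) (F (Wl (U ∘ Sum.inr))) c =
        t * vv (f1 (L.mat U)) (f2 (L.mat U)) c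
      rw [← h1, ← h2, ← hFf, ← hFf]
  refine ⟨t, fun c => ⟨_, hmem c⟩, fun c U => rfl, fun U => ?_⟩
  have h3 : ∀ V : Tm k ⊕ Tm k → G,
      ∑ c, (t * vv (F (Wl (mix (Sc2 k) V U ∘ Sum.inl))) (F (Wl (mix (Sc2 k) V U ∘ Sum.inr))) c) ^ 2 =
        t ^ 2 * H (Wl (mix (Sc2 k) V U ∘ Sum.inl)) (Wl (mix (Sc2 k) V U ∘ Sum.inr)) := by
    intro V
    simp only [mul_pow]
    rw [← Finset.mul_sum, sum_vv, hH]
  show ∫ V, ∑ c, (t * vv (F (Wl (mix (Sc2 k) V U ∘ Sum.inl)))
    (F (Wl (mix (Sc2 k) V U ∘ Sum.inr))) c) ^ 2 ∂(ME μ (Tm k ⊕ Tm k)) = 1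
  simp only [h3]
  rw [integral_const_mul, hhaar G μ k H U hHc, ← hZ, ht2]

/-! ### transfer to the lattice -/

section transfer

variable {E T : Type} [Fintype E] [DecidableEq E] [Fintype T] [DecidableEq T]

variable {μ} in
/-- averages of functions of the links of a part -/
lemma avg_pull {ι : T → E} (hι : Function.Injective ι) (S : Finset T) (φ : Sm L T)
    (U : E → G) : (avg μ (S.image ι) (pull ι φ)).1 U =
      ∫ V, φ.1 (mix S V (U ∘ ι)) ∂(ME μ T) := by
  have h := mp_comp μ hι (G := G)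
  have h2 := integral_map (μ := ME μ E) (f := fun V => φ.1 (mix S V (U ∘ ι)))
    h.measurable.aemeasurable
    ((Sm_cont φ).comp (continuous_mix_left S (U ∘ ι))).aestronglyMeasurable
  rw [h.map_eq] at h2
  rw [h2]
  refine integral_congr_ae (Filter.Eventually.of_forall fun V => ?_)
  show φ.1 (mix (S.image ι) V U ∘ ι) = φ.1 (mix S (V ∘ ι) (U ∘ ι))
  refine congrArg φ.1 (funext fun t => ?_)
  have h3 : ι t ∈ S.image ι ↔ t ∈ S := by
    constructor
    · intro h4
      obtain ⟨t', ht', h5⟩ := Finset.mem_image.1 h4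
      rwa [← hι h5]
    · exact fun h4 => Finset.mem_image_of_mem ι h4
  show (if ι t ∈ S.image ι then V (ι t) else U (ι t)) = if t ∈ S then V (ι t) else U (ι t)
  simp only [h3]

/-- gradients of functions of the links of a part -/
lemma Gam_pull {ι : T → E} (hι : Function.Injective ι) (φ : Sm L T) :
    Gam (L.Dv (E := E)) (pull ι φ) (pull ι φ) = pull ι (Gam (L.Dv (E := T)) φ φ) := by
  unfold Gam
  rw [map_sum, Fintype.sum_prod_type, Fintype.sum_prod_type]
  have h1 : ∀ e : E, e ∉ Finset.univ.image ι →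
      ∑ a : Fin n, L.Dv (e, a) (pull ι φ) * L.Dv (e, a) (pull ι φ) = 0 := by
    intro e he
    refine Finset.sum_eq_zero fun a _ => ?_
    rw [Dv_pull_zero e (fun s hs => he (Finset.mem_image.2 ⟨s, Finset.mem_univ _, hs⟩)) a φ,
      mul_zero]
  rw [← Finset.sum_subset (Finset.subset_univ (Finset.univ.image ι)) fun e _ he => h1 e he,
    Finset.sum_image fun a _ b _ hab => hι hab]
  refine Finset.sum_congr rfl fun s _ => Finset.sum_congr rfl fun a _ => ?_
  rw [map_mul, ← Dv_pull hι (s, a)]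

end transfer

lemma cmat_vv {X : Type} {M : ℕ} (t : X → ℝ) (a b : X → Fin M → ℂ) (x : X) :
    cmat (fun c x => t x * vv (a x) (b x) c) x =
      (t x : ℂ) • Matrix.of fun i j => a x i * (starRingEnd ℂ) (b x j) := by
  ext i j
  unfold cmat vv
  apply Complex.ext
  · simp
  · simp

lemma mulVec_outer {M : ℕ} (A B : Mat M) (a b : Fin M → ℂ) :
    (Matrix.of fun i j => (A.mulVec a) i * (starRingEnd ℂ) ((B.mulVec b) j) : Mat M) =
      A * (Matrix.of fun i j => a i * (starRingEnd ℂ) (b j) : Mat M) * Bᴴ := by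
  have h1 : ∀ (a b : Fin M → ℂ), (Matrix.of fun i j => a i * (starRingEnd ℂ) (b j) : Mat M) =
      Matrix.vecMulVec a (star b) := fun a b => by
    ext i j
    rfl
  rw [h1, h1, Matrix.mul_vecMulVec, Matrix.vecMulVec_mul, Matrix.star_mulVec]

/-- A state of two static charges far apart, in a representation which is trivial on the
centre, of energy at most `E₀` plus a constant. -/
theorem far (hosc : StmtOsc) (hgeo : StmtGeo) (hhaar : StmtHaar) {M k D : ℕ} (hD : 2 ≤ D)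
    (r : G →* Mat M)
    (F : (Fin k → G) → Fin M → ℂ) (f : (Fin k → Mat N) → Fin M → ℂ) (hf : ContDiff ℝ ∞ f)
    (hFf : ∀ U, F U = f fun i => L.rho (U i))
    (hF : ∀ (h : G) (U : Fin k → G), F (fun i => h * U i * h⁻¹) = (r h).mulVec (F U))
    (hne : ∃ U, F U ≠ 0) (g : ℝ) :
    ∃ C : ℝ, 0 ≤ C ∧ ∀ (l : ℕ) [NeZero l], k + 1 < l → ∀ x y : Fin D → ZMod l, k + 1 < dT x y →
      ∀ Ω : Sm L (Ed D l), Inv Ω → L.I μ (Ω * Ω) = 1 → ∀ ε : ℝ, 0 < ε →
      ∃ u : (Fin M × Fin M) × Bool → Sm L (Ed D l),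
        (∀ (γ : (Fin D → ZMod l) → G) (U : Ed D l → G),
          cmat (fun c => (u c).1) (gt γ U) =
            r (γ x) * cmat (fun c => (u c).1) U * (r (γ y))ᴴ) ∧
        ∑ c, L.I μ (u c * u c) = 1 ∧ ∑ c, en μ g (u c) ≤ en μ g Ω + C + ε := by
  obtain ⟨t, u, hu, hint⟩ := template (L := L) μ hhaar F f hf hFf hne
  -- the bound for the gradient
  obtain ⟨Γ, hΓ⟩ : ∃ Γ : Sm L (Tm k ⊕ Tm k), Γ = ∑ c, Gam (L.Dv (E := Tm k ⊕ Tm k)) (u c) (u c) :=
    ⟨_, rfl⟩
  obtain ⟨B, hB⟩ := (isCompact_univ.image (Sm_cont Γ)).bddAbove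
  have hB' : ∀ U, Γ.1 U ≤ max B 0 := fun U => (hB ⟨U, trivial, rfl⟩).trans (le_max_left _ _)
  obtain ⟨m, hm⟩ : ∃ m : ℝ, m = 1 / g ^ 2 * (8 * D * N * (Sc2 k).card) := ⟨_, rfl⟩
  have hm0 : 0 ≤ m := by rw [hm]; positivity
  have hB0 : 0 ≤ g ^ 2 / 2 * max B 0 := mul_nonneg (by positivity) (le_max_right _ _)
  refine ⟨m + m + g ^ 2 / 2 * max B 0, by positivity, ?_⟩
  intro l _ hl x y hxy Ω hΩ hn ε hε
  have hι := (hgeo D l k hD).1 hl x y hxy
  have hcov := (hgeo D l k hD).2.2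
  obtain ⟨ι, hιd⟩ : ∃ ι : Tm k ⊕ Tm k → Ed D l, ι = Sum.elim (lk hD x) (lk hD y) := ⟨_, rfl⟩
  rw [← hιd] at hι
  obtain ⟨S, hS⟩ : ∃ S, S = (Sc2 k).image ι := ⟨_, rfl⟩
  have hcard : S.card = (Sc2 k).card := by rw [hS, Finset.card_image_of_injective _ hι]
  obtain ⟨R, hRi, hRn, hRS, hRe⟩ := free (μ := μ) hosc S hΩ hn g hε
  have havg : avg μ S (∑ c, pull ι (u c) * pull ι (u c)) = 1 := by
    refine ev_ext fun U => ?_
    rw [map_one]
    have h1 : ∑ c, pull ι (u c) * pull ι (u c) = pull ι (∑ c, u c * u c) := by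
      rw [map_sum]
      exact Finset.sum_congr rfl fun c _ => by rw [map_mul]
    show (avg μ S (∑ c, pull ι (u c) * pull ι (u c))).1 U = 1
    rw [h1, hS, avg_pull hι, ← hint (U ∘ ι)]
    refine integral_congr_ae (Filter.Eventually.of_forall fun V => ?_)
    show L.ev (mix (Sc2 k) V (U ∘ ι)) (∑ c, u c * u c) = _
    rw [map_sum]
    refine Finset.sum_congr rfl fun c _ => ?_
    rw [map_mul, sq]
    rfl
  have hgam : ∀ U, L.ev U (∑ c, Gam (L.Dv (E := Ed D l)) (pull ι (u c)) (pull ι (u c))) ≤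
      max B 0 := by
    intro U
    have h1 : ∑ c, Gam (L.Dv (E := Ed D l)) (pull ι (u c)) (pull ι (u c)) = pull ι Γ := by
      rw [hΓ, map_sum]
      exact Finset.sum_congr rfl fun c _ => Gam_pull hι (u c)
    rw [h1]
    exact hB' (U ∘ ι)
  obtain ⟨h1, h2⟩ := dress (μ := μ) hosc S hRn hRS g (fun c => pull ι (u c)) havg hgam
  refine ⟨fun c => pull ι (u c) * R, fun γ U => ?_, h1, ?_⟩
  · have e1 : ∀ U : Ed D l → G, cmat (fun c => (pull ι (u c) * R).1) U =
        ((t * R.1 U : ℝ) : ℂ) • Matrix.of fun i j => F (Wl (U ∘ lk hD x)) i *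
          (starRingEnd ℂ) (F (Wl (U ∘ lk hD y)) j) := by
      intro U
      have e2 : (fun c => (pull ι (u c) * R).1) = fun c U => (t * R.1 U) *
          vv (F (Wl (U ∘ lk hD x))) (F (Wl (U ∘ lk hD y))) c := by
        funext c U
        show (u c).1 (U ∘ ι) * R.1 U = _
        rw [hu, hιd]
        have e3 : (U ∘ Sum.elim (lk (k := k) hD x) (lk (k := k) hD y)) ∘ Sum.inl =
          U ∘ lk (k := k) hD x := rfl
        have e4 : (U ∘ Sum.elim (lk (k := k) hD x) (lk (k := k) hD y)) ∘ Sum.inr =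
          U ∘ lk (k := k) hD y := rfl
        rw [e3, e4]
        ring
      rw [e2]
      exact cmat_vv (fun U => t * R.1 U) (fun U => F (Wl (U ∘ lk hD x)))
        (fun U => F (Wl (U ∘ lk hD y))) U
    have e5 : R.1 (gt γ U) = R.1 U := congrArg (fun v : Sm L (Ed D l) => v.1 U) (hRi γ)
    have e6 : ∀ z, F (Wl (gt γ U ∘ lk hD z)) = (r (γ z)).mulVec (F (Wl (U ∘ lk hD z))) := by
      intro z
      rw [← hF]
      congr 1
      funext i
      exact hcov G γ U z i
    rw [e1, e1, e5, e6, e6, mulVec_outer, mul_smul_comm, smul_mul_assoc]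
  · rw [hcard, ← hm] at h2 hRe
    linarith

end

end Pool.Agent.W653.SC
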