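import Mathlib
import Pool.Agent.W504.YM.Fin
import Pool.Agent.W646.SC.Ord

/-!
# Compact groups with a faithful representation
-/

open MeasureTheory Matrix
open scoped Matrix.Norms.Frobenius ContDiff

namespace Pool.Agent.W653.SC

open Pool.Agent.H906R3.YM Pool.Agent.W504.YM

set_option linter.unusedSectionVars false

noncomputable section

/-- Orthonormal basis of the Lie algebra. -/
structure Fr {N : ℕ} {G : Type} [Group G] (ι : G →* UN N) (n : ℕ) where
  X : Fin n → Mat N
  ex : Fin n → ℝ → G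
  ex_eq : ∀ a t, (ι (ex a t) : Mat N) = NormedSpace.exp (t • X a)
  orth : ∀ a b, (trace ((X a)ᴴ * X b)).re = if a = b then 1 else 0
  full : ∀ Y : Mat N, (∀ t : ℝ, ∃ g : G, (ι g : Mat N) = NormedSpace.exp (t • Y)) →
    Y ∈ Submodule.span ℝ (Set.range X)

variable {N n : ℕ} {G : Type} [Group G] {ι : G →* UN N}

/-- the frame of the image -/
def Fr.fr (B : Fr ι n) : Frame ι.range n where
  X := B.X
  ex a t := ι.rangeRestrict (B.ex a t)
  ex_eq a t := B.ex_eq a t
  orth := B.orth
  full Y hY := B.full Y fun t => by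
    obtain ⟨⟨_, h, rfl⟩, hh⟩ := hY t
    exact ⟨h, hh⟩

variable [TopologicalSpace G]

/-- the abstract data -/
def Fr.ld (hι : Continuous ι) (hinj : Function.Injective ι) (B : Fr ι n) : LD G N n where
  rho := (Submonoid.subtype _).comp ι
  cont := continuous_subtype_val.comp hι
  unit h := Matrix.mem_unitaryGroup_iff.1 (ι h).2
  X := B.X
  ex := B.ex
  ex_add a s t := by
    apply hinj
    rw [map_mul]
    exact congrArg Subtype.val (B.fr.toLD.ex_add a s t)
  deriv_ex := B.fr.deriv_ex
  orth := B.orth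
  conj_mem g a := B.fr.conj_mem (ι.rangeRestrict g) a
  brk_mem := B.fr.brk_mem

variable (hι : Continuous ι) (hinj : Function.Injective ι) (B : Fr ι n)

lemma curv_tra {K : ℝ} (h : Curv B.fr.toLD K) : Curv (B.ld hι hinj) K := h

include hinj in
lemma pth_tra {v : Fin n → ℝ} {c : ℝ → ι.range} (h : Pth B.fr.toLD v c) :
    Pth (B.ld hι hinj) v (fun t => (MonoidHom.ofInjective hinj).symm (c t)) := by
  have h0 : ∀ g : ι.range, ι ((MonoidHom.ofInjective hinj).symm g) = (g : UN N) := fun g =>
    congrArg Subtype.val ((MonoidHom.ofInjective hinj).apply_symm_apply g)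
  refine ⟨by rw [h.zero, map_one], fun t => ?_⟩
  have h1 : ∀ t, (B.ld hι hinj).rho ((MonoidHom.ofInjective hinj).symm (c t)) =
      B.fr.toLD.rho (c t) := fun t => congrArg Subtype.val (h0 (c t))
  simp only [h1]
  exact h.d t

lemma pd_tra {r : ℝ} {g : ι.range} (h : Pd B.fr.toLD r g) :
    Pd (B.ld hι hinj) r ((MonoidHom.ofInjective hinj).symm g) := by
  induction h with
  | one => rw [map_one]; exact Pd.one
  | step hp hc ih =>
    rw [map_mul]
    exact Pd.step ih (pth_tra hι hinj B hc)

lemma cn_tra {r : ℝ} (h : Cn B.fr.toLD r) : Cn (B.ld hι hinj) r := by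
  intro g
  obtain ⟨r', hr, h1⟩ := h (MonoidHom.ofInjective hinj g)
  refine ⟨r', hr, ?_⟩
  have := pd_tra hι hinj B h1
  rwa [MulEquiv.symm_apply_apply] at this

variable [CompactSpace G]

include hι in
lemma range_closed' : IsClosed (ι.range : Set (UN N)) := by
  have := (isCompact_range hι).isClosed
  rwa [← MonoidHom.coe_range] at this

include hι in
lemma range_conn [ConnectedSpace G] : ConnectedSpace ι.range := by
  have h1 : Continuous (ι.rangeRestrict : G → ι.range) := hι.subtype_mk _
  exact (MonoidHom.rangeRestrict_surjective ι).connectedSpace h1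

include hι hinj in
lemma emb_tra : Topology.IsClosedEmbedding ι := hι.isClosedEmbedding hinj

include hι hinj in
lemma t2_tra : T2Space G := (emb_tra hι hinj).t2Space

include hι hinj in
lemma sec_tra : SecondCountableTopology G := by
  have h0 : SecondCountableTopology (UN N) := TopologicalSpace.Subtype.secondCountableTopology _
  exact (emb_tra hι hinj).isEmbedding.secondCountableTopology

lemma cn_conn_tra [ConnectedSpace G] : ∃ r, Cn (B.ld hι hinj) r := by
  have := range_conn hι
  obtain ⟨r, hr⟩ := Cn_conn B.fr (range_closed' hι)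
  exact ⟨r, cn_tra hι hinj B hr⟩

lemma cn_su_tra (h : ∀ u : UN N, (∃ g, ι g = u) ↔ (u : Mat N).det = 1) (hN : 0 < N) :
    ∃ r, Cn (B.ld hι hinj) r := by
  have h1 : IsSU ι.range := fun u => by rw [← h u, MonoidHom.mem_range]
  obtain ⟨r, hr⟩ := Cn_su h1 B.fr hN
  exact ⟨r, cn_tra hι hinj B hr⟩

lemma curv_su_tra (h : ∀ u : UN N, (∃ g, ι g = u) ↔ (u : Mat N).det = 1) :
    Curv (B.ld hι hinj) (N / 2) := by
  have h1 : IsSU ι.range := fun u => by rw [← h u, MonoidHom.mem_range]
  exact curv_tra hι hinj B (curv_su h1 B.fr)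

lemma ord_tra {K : ℝ} (hK : 0 < K) (hc : Curv (B.ld hι hinj) K) (z : G)
    (hz : ∀ h : G, z * h = h * z) : ∃ p : ℕ, 0 < p ∧ z ^ p = 1 := by
  obtain ⟨p, hp, h1⟩ := Pool.Agent.W646.SC.ord_main N n ι.range (range_closed' hι) B.fr K hK hc
    (ι.rangeRestrict z) (by
      rintro ⟨_, h, rfl⟩
      have h2 : ι.rangeRestrict z * ι.rangeRestrict h = ι.rangeRestrict h * ι.rangeRestrict z := by
        rw [← map_mul, ← map_mul, hz]
      exact h2)
  refine ⟨p, hp, hinj ?_⟩
  rw [map_one, map_pow]
  exact congrArg Subtype.val h1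

end

end Pool.Agent.W653.SC
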